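import Mathlib
import Pool.Agent.Lib.MP_abd417_co.Up.Main

namespace Pool.Agent.Results.MP_abd417_co.PowerSaving

/-- A finite set of `n` unit vectors of three-space contains at most `C * n ^ (4/3 - η)`
orthonormal bases (unordered pairwise orthogonal triples), for some absolute `η > 0` and `C`. -/
theorem result :
    ∃ η : ℝ, 0 < η ∧ ∃ C : ℝ, ∀ V : Finset (EuclideanSpace ℝ (Fin 3)), (∀ v ∈ V, ‖v‖ = 1) →
      (({T : Finset (EuclideanSpace ℝ (Fin 3)) | T ⊆ V ∧ T.card = 3 ∧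
        ∀ u ∈ T, ∀ v ∈ T, u ≠ v → inner ℝ u v = 0}.ncard : ℕ) : ℝ) ≤
        C * (V.card : ℝ) ^ (4 / 3 - η) :=
  Pool.Agent.Lib.MP_abd417_co.Up.main

end Pool.Agent.Results.MP_abd417_co.PowerSaving
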