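import Mathlib
import Pool.Agent.Lib.MP_abd417_co.Final

namespace Pool.Agent.Results.MP_abd417_co.SuperlinearLower

/-- For all large `n` some set of `n` distinct unit vectors of three-space contains at least
`n * exp (c * (log n)^(1/3) / log log n)` orthonormal bases (unordered pairwise orthogonal
triples). -/
theorem result :
    ∃ c : ℝ, 0 < c ∧ ∃ N : ℕ, ∀ n : ℕ, N ≤ n →
      ∃ V : Finset (EuclideanSpace ℝ (Fin 3)), V.card = n ∧ (∀ v ∈ V, ‖v‖ = 1) ∧
        (n : ℝ) * Real.exp (c * (Real.log n) ^ (1 / 3 : ℝ) / Real.log (Real.log n)) ≤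
          (({T : Finset (EuclideanSpace ℝ (Fin 3)) | T ⊆ V ∧ T.card = 3 ∧
            ∀ u ∈ T, ∀ v ∈ T, u ≠ v → inner ℝ u v = 0}.ncard : ℕ) : ℝ) := by
  obtain ⟨N, hN⟩ := Filter.eventually_atTop.1 Pool.Agent.Lib.MP_abd417_co.asymptotic_form
  exact ⟨1 / 6000, by norm_num, N, hN⟩

end Pool.Agent.Results.MP_abd417_co.SuperlinearLower
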